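import Mathlib

/-!
Powers of the Thue-Morse generating function: the sets of sign exceptions for the
exponent `m = 2` have positive lower density, for both residue classes.
-/

namespace Pool.Agent.Results.MP_58bd73_nt.SignExceptionsPositiveDensity

open Polynomial

/-- `t m n` is the coefficient of `x ^ n` in the infinite product of the factors
`(1 - x ^ (2 ^ k)) ^ m` over all `k ≥ 0`. The factors with `k > n` do not change this
coefficient, so the product over `k ≤ n` is used. -/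
noncomputable def t (m n : ℕ) : ℤ :=
  (∏ k ∈ Finset.range (n + 1), (1 - (X : ℤ[X]) ^ 2 ^ k) ^ m).coeff n

/-- The set of sign exceptions: all `n` such that the sign of `t m (3 n + j)` is not `(-1) ^ j`. -/
def A (m j : ℕ) : Set ℕ := {n : ℕ | Int.sign (t m (3 * n + j)) ≠ (-1) ^ j}

/-- The number of elements of `S` below `N`. -/
noncomputable def count (S : Set ℕ) (N : ℕ) : ℕ := (S ∩ Set.Iio N).ncard

/-- `S` has asymptotic density zero. -/
def DensityZero (S : Set ℕ) : Prop :=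
  Filter.Tendsto (fun N : ℕ => (count S N : ℝ) / (N : ℝ)) Filter.atTop (nhds 0)

/-- finite partial products -/
noncomputable def Q (m K : ℕ) : ℤ[X] := ∏ k ∈ Finset.range K, (1 - (X : ℤ[X]) ^ 2 ^ k) ^ m

lemma Q_succ (m K : ℕ) : Q m (K + 1) = (1 - X) ^ m * Polynomial.expand ℤ 2 (Q m K) := by
  unfold Q
  rw [Finset.prod_range_succ', map_prod, mul_comm]
  congr 1
  · simp
  · apply Finset.prod_congr rfl
    intro k _
    rw [map_pow, map_sub, map_pow, map_one, expand_X, ← pow_mul, pow_succ, mul_comm]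

lemma Q_stable (m K n : ℕ) (h : n < 2 ^ K) : (Q m (K + 1)).coeff n = (Q m K).coeff n := by
  have : Q m (K + 1) = Q m K * (1 - (X : ℤ[X]) ^ 2 ^ K) ^ m := by
    unfold Q
    rw [Finset.prod_range_succ]
  rw [this]
  have hd : ∃ g : ℤ[X], (1 - (X : ℤ[X]) ^ 2 ^ K) ^ m = 1 + X ^ 2 ^ K * g := by
    have : (X : ℤ[X]) ^ 2 ^ K ∣ (1 - (X : ℤ[X]) ^ 2 ^ K) ^ m - 1 ^ m :=
      dvd_trans (by simp) (sub_dvd_pow_sub_pow _ _ m)
    obtain ⟨g, hg⟩ := this
    exact ⟨g, by rw [← hg]; ring⟩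
  obtain ⟨g, hg⟩ := hd
  rw [hg, mul_add, mul_one, coeff_add, ← mul_assoc, mul_comm (Q m K), mul_assoc, coeff_X_pow_mul']
  simp [not_le.mpr h]

lemma Q_stable' (m K L n : ℕ) (h : n < 2 ^ K) (hKL : K ≤ L) :
    (Q m L).coeff n = (Q m K).coeff n := by
  induction L, hKL using Nat.le_induction with
  | base => rfl
  | succ L hL ih =>
    rw [Q_stable m L n (lt_of_lt_of_le h (Nat.pow_le_pow_right (by norm_num) hL)), ih]

lemma t_eq (m n K : ℕ) (h : n < 2 ^ K) : t m n = (Q m K).coeff n := by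
  have h1 : n < 2 ^ (n + 1) := lt_trans (Nat.lt_succ_self n) (Nat.lt_two_pow_self)
  have : t m n = (Q m (n + 1)).coeff n := rfl
  rw [this]
  rcases le_total K (n + 1) with hK | hK
  · exact Q_stable' m K (n + 1) n h hK
  · exact (Q_stable' m (n + 1) K n h1 hK).symm

lemma t2_odd (n : ℕ) : t 2 (2 * n + 1) = -2 * t 2 n := by
  have h1 : n < 2 ^ (n + 1) := lt_trans (Nat.lt_succ_self n) (Nat.lt_two_pow_self)
  rw [t_eq 2 n (n + 1) h1, t_eq 2 (2 * n + 1) (n + 2) (by rw [pow_succ]; omega)]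
  rw [Q_succ]
  have : (1 - X : ℤ[X]) ^ 2 * Polynomial.expand ℤ 2 (Q 2 (n + 1)) =
    Polynomial.expand ℤ 2 (Q 2 (n + 1)) - 2 * (Polynomial.expand ℤ 2 (Q 2 (n + 1)) * X) +
     Polynomial.expand ℤ 2 (Q 2 (n + 1)) * X ^ 2 := by ring
  rw [this]
  have e1 : (Polynomial.expand ℤ 2 (Q 2 (n + 1))).coeff (2 * n + 1) = 0 := by
    rw [coeff_expand (by norm_num)]
    rw [if_neg (by omega)]
  have e2 : (Polynomial.expand ℤ 2 (Q 2 (n + 1)) * X).coeff (2 * n + 1)
      = (Q 2 (n + 1)).coeff n := by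
    rw [coeff_mul_X, coeff_expand (by norm_num), if_pos (by omega)]
    congr 1; omega
  have e3 : (Polynomial.expand ℤ 2 (Q 2 (n + 1)) * X ^ 2).coeff (2 * n + 1) = 0 := by
    rw [coeff_mul_X_pow']
    split_ifs with h
    · rw [coeff_expand (by norm_num), if_neg (by omega)]
    · rfl
  rw [coeff_add, coeff_sub, show (2 : ℤ[X]) = C 2 from rfl, coeff_C_mul, e1, e2, e3]
  ring

lemma t2_even (n : ℕ) : t 2 (2 * (n + 1)) = t 2 (n + 1) + t 2 n := by
  have h1 : n + 1 < 2 ^ (n + 2) := lt_trans (Nat.lt_succ_self (n + 1)) (Nat.lt_two_pow_self)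
  rw [t_eq 2 n (n + 2) (by omega), t_eq 2 (n + 1) (n + 2) h1,
    t_eq 2 (2 * (n + 1)) (n + 3) (by rw [pow_succ]; omega)]
  rw [Q_succ]
  have : (1 - X : ℤ[X]) ^ 2 * Polynomial.expand ℤ 2 (Q 2 (n + 2)) =
    Polynomial.expand ℤ 2 (Q 2 (n + 2)) - 2 * (Polynomial.expand ℤ 2 (Q 2 (n + 2)) * X) +
     Polynomial.expand ℤ 2 (Q 2 (n + 2)) * X ^ 2 := by ring
  rw [this]
  have e1 : (Polynomial.expand ℤ 2 (Q 2 (n + 2))).coeff (2 * (n + 1))
      = (Q 2 (n + 2)).coeff (n + 1) := by
    rw [coeff_expand (by norm_num)]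
    rw [if_pos (by omega)]
    congr 1; omega
  have e2 : (Polynomial.expand ℤ 2 (Q 2 (n + 2)) * X).coeff (2 * (n + 1)) = 0 := by
    rw [show 2 * (n + 1) = (2 * n + 1) + 1 by ring, coeff_mul_X,
      coeff_expand (by norm_num), if_neg (by omega)]
  have e3 : (Polynomial.expand ℤ 2 (Q 2 (n + 2)) * X ^ 2).coeff (2 * (n + 1))
      = (Q 2 (n + 2)).coeff n := by
    rw [show 2 * (n + 1) = 2 * n + 2 by ring, coeff_mul_X_pow, coeff_expand (by norm_num),
      if_pos (by omega)]
    congr 1; omega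
  rw [coeff_add, coeff_sub, show (2 : ℤ[X]) = C 2 from rfl, coeff_C_mul, e1, e2, e3]
  ring

/-- Among `t(n)`, `t(16 n)`, `t(128 n + 96)` at least one is nonpositive. -/
lemma key0 (n : ℕ) : t 2 (n + 1) ≤ 0 ∨ t 2 (16 * (n + 1)) ≤ 0 ∨ t 2 (128 * (n + 1) + 96) ≤ 0 := by
  -- the zero run from n + 1
  have a1 := t2_even n
  have b1 := t2_odd n
  have a2 := t2_even (2 * n + 1)
  have b2 := t2_odd (2 * n + 1)
  have a3 := t2_even (4 * n + 3)
  have b3 := t2_odd (4 * n + 3)
  have a4 := t2_even (8 * n + 7)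
  -- the word 11 00000
  have c1 := t2_odd (n + 1)
  have d2 := t2_odd (2 * n + 3)
  have c2 := t2_even (2 * n + 2)
  have e1 := t2_even (4 * n + 6)
  have f1 := t2_odd (4 * n + 6)
  have e2 := t2_even (8 * n + 13)
  have f2 := t2_odd (8 * n + 13)
  have e3 := t2_even (16 * n + 27)
  have f3 := t2_odd (16 * n + 27)
  have e4 := t2_even (32 * n + 55)
  have f4 := t2_odd (32 * n + 55)
  have e5 := t2_even (64 * n + 111)
  ring_nf at *
  omega

/-- Among `t(n)`, `t(128 n + 65)`, `t(256 n + 33)` at least one is nonnegative. -/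
lemma key1 (n : ℕ) :
    0 ≤ t 2 (n + 1) ∨ 0 ≤ t 2 (128 * (n + 1) + 65) ∨ 0 ≤ t 2 (256 * (n + 1) + 33) := by
  -- word 1 00000 1 from N = n + 1
  have a0 := t2_even n
  have a1 := t2_odd (n + 1)
  have b1 := t2_even (2 * n + 2)
  have b2 := t2_odd (2 * n + 2)
  have c1 := t2_even (4 * n + 5)
  have c2 := t2_odd (4 * n + 5)
  have d1 := t2_even (8 * n + 11)
  have d2 := t2_odd (8 * n + 11)
  have e1 := t2_even (16 * n + 23)
  have e2 := t2_odd (16 * n + 23)
  have f1 := t2_even (32 * n + 47)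
  have g1 := t2_odd (64 * n + 96)
  -- word 00 1 0000 1 from N = n + 1
  have h0 := t2_odd n
  have h1 := t2_even (2 * n + 1)
  have h2 := t2_odd (2 * n + 1)
  have i1 := t2_odd (4 * n + 4)
  have i2 := t2_even (4 * n + 3)
  have j1 := t2_even (8 * n + 8)
  have j2 := t2_odd (8 * n + 8)
  have k1 := t2_even (16 * n + 17)
  have k2 := t2_odd (16 * n + 17)
  have l1 := t2_even (32 * n + 35)
  have l2 := t2_odd (32 * n + 35)
  have m1 := t2_even (64 * n + 71)
  have m2 := t2_odd (128 * n + 144)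
  ring_nf at *
  omega

lemma mem0 (n : ℕ) : n ∈ A 2 0 ↔ t 2 (3 * n) ≤ 0 := by
  simp only [A, Set.mem_ofPred_eq, add_zero, pow_zero, ne_eq, Int.sign_eq_one_iff_pos, not_lt]

lemma mem1 (n : ℕ) : n ∈ A 2 1 ↔ 0 ≤ t 2 (3 * n + 1) := by
  simp only [A, Set.mem_ofPred_eq, pow_one, ne_eq, Int.sign_eq_neg_one_iff_neg, not_lt]

lemma cover0 (k : ℕ) (hk : 1 ≤ k) : k ∈ A 2 0 ∨ 16 * k ∈ A 2 0 ∨ 128 * k + 32 ∈ A 2 0 := by
  have h := key0 (3 * k - 1)
  rw [show 3 * k - 1 + 1 = 3 * k by omega] at h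
  rw [mem0, mem0, mem0]
  rw [show 3 * (16 * k) = 16 * (3 * k) by ring,
    show 3 * (128 * k + 32) = 128 * (3 * k) + 96 by ring]
  exact h

lemma cover1 (k : ℕ) : k ∈ A 2 1 ∨ 128 * k + 64 ∈ A 2 1 ∨ 256 * k + 96 ∈ A 2 1 := by
  have h := key1 (3 * k)
  rw [mem1, mem1, mem1]
  rw [show 3 * (128 * k + 64) + 1 = 128 * (3 * k + 1) + 65 by ring,
    show 3 * (256 * k + 96) + 1 = 256 * (3 * k + 1) + 33 by ring]
  exact h

/-- If every `k ≥ 1` satisfies one of three affine memberships, the counting function of `S`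
grows linearly. -/
lemma count_lower (S : Set ℕ) (a b c d : ℕ) (ha : 1 ≤ a ∧ a ≤ 256) (hc : 1 ≤ c ∧ c ≤ 256)
    (hb : b ≤ 256) (hd : d ≤ 256)
    (h : ∀ k, 1 ≤ k → k ∈ S ∨ a * k + b ∈ S ∨ c * k + d ∈ S) (M : ℕ) :
    M ≤ 3 * count S (256 * (M + 2)) := by
  classical
  set N := 256 * (M + 2) with hN
  have hfin : (S ∩ Set.Iio N).Finite := (Set.finite_Iio N).inter_of_right S
  set F := hfin.toFinset with hF
  have hcount : count S N = F.card := Set.ncard_eq_toFinset_card _ hfin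
  have hmem : ∀ x, x ∈ F ↔ x ∈ S ∧ x < N := by
    intro x; simp [hF]
  have hsub : Finset.Icc 1 M ⊆
      (Finset.Icc 1 M).filter (fun k => k ∈ F) ∪
      (Finset.Icc 1 M).filter (fun k => a * k + b ∈ F) ∪
      (Finset.Icc 1 M).filter (fun k => c * k + d ∈ F) := by
    intro k hk
    have hk' := Finset.mem_Icc.mp hk
    have hak : a * k + b < N := by
      have : a * k ≤ 256 * M := Nat.mul_le_mul ha.2 hk'.2
      omega
    have hck : c * k + d < N := by
      have : c * k ≤ 256 * M := Nat.mul_le_mul hc.2 hk'.2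
      omega
    have hkN : k < N := by omega
    simp only [Finset.mem_union, Finset.mem_filter, hmem]
    rcases h k hk'.1 with h1 | h1 | h1
    · exact Or.inl (Or.inl ⟨hk, h1, hkN⟩)
    · exact Or.inl (Or.inr ⟨hk, h1, hak⟩)
    · exact Or.inr ⟨hk, h1, hck⟩
  have e1 : ((Finset.Icc 1 M).filter (fun k => k ∈ F)).card ≤ F.card := by
    apply Finset.card_le_card
    intro x hx
    exact (Finset.mem_filter.mp hx).2
  have e2 : ((Finset.Icc 1 M).filter (fun k => a * k + b ∈ F)).card ≤ F.card := by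
    apply Finset.card_le_card_of_injOn (fun k => a * k + b)
    · intro x hx
      exact (Finset.mem_filter.mp hx).2
    · intro x _ y _ hxy
      have : a * x = a * y := by
        have : a * x + b = a * y + b := hxy
        omega
      exact Nat.eq_of_mul_eq_mul_left (by omega) this
  have e3 : ((Finset.Icc 1 M).filter (fun k => c * k + d ∈ F)).card ≤ F.card := by
    apply Finset.card_le_card_of_injOn (fun k => c * k + d)
    · intro x hx
      exact (Finset.mem_filter.mp hx).2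
    · intro x _ y _ hxy
      have : c * x = c * y := by
        have : c * x + d = c * y + d := hxy
        omega
      exact Nat.eq_of_mul_eq_mul_left (by omega) this
  have hM : M = (Finset.Icc 1 M).card := by simp
  have h4 := Finset.card_le_card hsub
  have h5 := Finset.card_union_le ((Finset.Icc 1 M).filter (fun k => k ∈ F) ∪
      (Finset.Icc 1 M).filter (fun k => a * k + b ∈ F))
      ((Finset.Icc 1 M).filter (fun k => c * k + d ∈ F))
  have h6 := Finset.card_union_le ((Finset.Icc 1 M).filter (fun k => k ∈ F))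
      ((Finset.Icc 1 M).filter (fun k => a * k + b ∈ F))
  rw [hcount]
  omega

lemma count_mono (S : Set ℕ) {M N : ℕ} (h : M ≤ N) : count S M ≤ count S N := by
  apply Set.ncard_le_ncard
  · intro x hx
    exact ⟨hx.1, lt_of_lt_of_le hx.2 h⟩
  · exact (Set.finite_Iio N).inter_of_right S

lemma count_lower' (S : Set ℕ)
    (h : ∀ M, M ≤ 3 * count S (256 * (M + 2))) (N : ℕ) : N ≤ 768 * count S N + 768 := by
  by_cases hN : N < 768
  · omega
  · have h1 := h (N / 256 - 2)
    have h2 : 256 * (N / 256 - 2 + 2) ≤ N := by omega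
    have h3 := count_mono S h2
    omega

lemma lower (j : ℕ) (hj : j = 0 ∨ j = 1) (N : ℕ) : N ≤ 768 * count (A 2 j) N + 768 := by
  apply count_lower'
  intro M
  rcases hj with rfl | rfl
  · exact count_lower (A 2 0) 16 0 128 32 (by norm_num) (by norm_num) (by norm_num) (by norm_num)
      (fun k hk => cover0 k hk) M
  · exact count_lower (A 2 1) 128 64 256 96 (by norm_num) (by norm_num) (by norm_num) (by norm_num)
      (fun k _ => cover1 k) M

/-- For `m = 2` and both `j = 0, 1` the set of sign exceptions has positive lower density, in the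
explicit form `N ≤ 768 (#(A 2 j ∩ [0, N)) + 1)`; hence it is not true that for every `m ≥ 2` and
each `j ∈ {0, 1}` the set of sign exceptions is infinite and has asymptotic density zero. -/
theorem result :
    (∀ j : ℕ, j = 0 ∨ j = 1 → ∀ N : ℕ, N ≤ 768 * (count (A 2 j) N + 1)) ∧
    ¬ (∀ m : ℕ, 2 ≤ m → ∀ j : ℕ, j = 0 ∨ j = 1 → (A m j).Infinite ∧ DensityZero (A m j)) := by
  refine ⟨fun j hj N => ?_, fun hcon => ?_⟩
  · have := lower j hj N
    omega
  · have h0 := (hcon 2 le_rfl 0 (Or.inl rfl)).2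
    unfold DensityZero at h0
    have h1 : ∀ᶠ N : ℕ in Filter.atTop, (count (A 2 0) N : ℝ) / (N : ℝ) < 1 / 1536 :=
      h0.eventually_lt_const (by norm_num)
    obtain ⟨N0, hN0⟩ := Filter.eventually_atTop.mp h1
    have h2 := hN0 (N0 + 1537) (by omega)
    have h3 := lower 0 (Or.inl rfl) (N0 + 1537)
    have hpos : (0 : ℝ) < ((N0 + 1537 : ℕ) : ℝ) := by positivity
    rw [div_lt_iff₀ hpos] at h2
    have h4 : ((N0 + 1537 : ℕ) : ℝ) ≤ 768 * (count (A 2 0) (N0 + 1537) : ℝ) + 768 := by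
      exact_mod_cast h3
    have h5 : (1537 : ℝ) ≤ ((N0 + 1537 : ℕ) : ℝ) := by
      push_cast
      have : (0 : ℝ) ≤ (N0 : ℝ) := Nat.cast_nonneg N0
      linarith
    linarith

end Pool.Agent.Results.MP_58bd73_nt.SignExceptionsPositiveDensity
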